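import Pool.Agent.Helper50.CG.Main

/-!
# MP_b5f63d_co: kissing configurations with commutative symmetry

Upper bounds for kissing configurations (and spherical codes of every angle) which are covered by
few orbits of a commutative group of isometries, and configurations which are one orbit of a
cyclic group.
-/

set_option autoImplicit false

open Finset Filter Module

namespace Pool.Agent.Results.MP_b5f63d_co.CommutativeSymmetry

/-- `X` is a finite set of unit vectors with pairwise inner products at most `s`; for `s = 1/2`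
this is a kissing configuration. -/
def IsCode {E : Type} [NormedAddCommGroup E] [InnerProductSpace ℝ E] (s : ℝ) (X : Finset E) :
    Prop :=
  (∀ x ∈ X, ‖x‖ = 1) ∧ ∀ x ∈ X, ∀ y ∈ X, x ≠ y → inner ℝ x y ≤ s

/-- `E` is the orthogonal sum of the subspaces `V i`, each of which is a line or a plane. -/
structure IsLinePlane {E : Type} [NormedAddCommGroup E] [InnerProductSpace ℝ E] {k : ℕ}
    (V : Fin k → Submodule ℝ E) : Prop where
  orth : ∀ i j, i ≠ j → ∀ x ∈ V i, ∀ y ∈ V j, inner ℝ x y = 0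
  top : ⨆ i, V i = ⊤
  dim : ∀ i, finrank ℝ (V i) = 1 ∨ finrank ℝ (V i) = 2

/-- the number of lines in the decomposition -/
noncomputable def numLines {E : Type} [NormedAddCommGroup E] [InnerProductSpace ℝ E] {k : ℕ}
    (V : Fin k → Submodule ℝ E) : ℕ :=
  (Finset.univ.filter (fun i => finrank ℝ (V i) = 1)).card

/-- the number of planes in the decomposition -/
noncomputable def numPlanes {E : Type} [NormedAddCommGroup E] [InnerProductSpace ℝ E] {k : ℕ}
    (V : Fin k → Submodule ℝ E) : ℕ :=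
  (Finset.univ.filter (fun i => finrank ℝ (V i) = 2)).card

/-- the norms of the components of `x` -/
noncomputable def profile {E : Type} [NormedAddCommGroup E] [InnerProductSpace ℝ E]
    [FiniteDimensional ℝ E] {k : ℕ} (V : Fin k → Submodule ℝ E) (x : E) (i : Fin k) : ℝ :=
  ‖(V i).starProjection x‖

/-- entropy (in nats) of a finitely supported probability on the integers -/
noncomputable def entropyZ (q : ℤ → ℝ) (T : Finset ℤ) : ℝ := ∑ k ∈ T, q k * (-Real.log (q k))

/-- entropy (in nats) of the probability `(p, 1 - p)` -/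
noncomputable def entropy2 (p : ℝ) : ℝ := p * (-Real.log p) + (1 - p) * (-Real.log (1 - p))

/-- `q` is a probability on the integers with support `T` and `(p, 1 - p)` is a probability on two
points with `∑ √(q k q (k+1)) > s` and `2 √(p (1 - p)) > s`. -/
structure Admissible (s : ℝ) (q : ℤ → ℝ) (T : Finset ℤ) (p : ℝ) : Prop where
  qpos : ∀ k ∈ T, 0 < q k
  qzero : ∀ k, k ∉ T → q k = 0
  qone : ∑ k ∈ T, q k = 1
  ppos : 0 < p
  plt : p < 1
  qcorr : s < ∑ k ∈ T, Real.sqrt (q k) * Real.sqrt (q (k + 1))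
  pcorr : s < 2 * (Real.sqrt p * Real.sqrt (1 - p))

/-- `X` is contained in the union of the orbits of the points of `Y` under `G`. -/
def Covered {E : Type} [NormedAddCommGroup E] [InnerProductSpace ℝ E]
    (G : Subgroup (E ≃ₗᵢ[ℝ] E)) (X Y : Finset E) : Prop :=
  ∀ x ∈ X, ∃ y ∈ Y, ∃ g ∈ G, g y = x

/-- the elements of `G` commute -/
def Commutative {E : Type} [NormedAddCommGroup E] [InnerProductSpace ℝ E]
    (G : Subgroup (E ≃ₗᵢ[ℝ] E)) : Prop :=
  ∀ g ∈ G, ∀ h ∈ G, g * h = h * g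

theorem exists_para {s : ℝ} {q : ℤ → ℝ} {T : Finset ℤ} {p : ℝ} (h : Admissible s q T p) :
    ∃ lam L : ℝ, s < lam ∧ 1 ≤ L ∧ Helper50.CG.Para q T p lam L := by
  classical
  obtain ⟨L1, hL1⟩ : ∃ L1 : ℝ, ∀ k ∈ T, -Real.log (q k) ≤ L1 := by
    obtain ⟨M, hM⟩ := (T.image (fun k => -Real.log (q k))).bddAbove
    exact ⟨M, fun k hk => hM (Finset.mem_coe.2 (Finset.mem_image_of_mem _ hk))⟩
  refine ⟨min (∑ k ∈ T, Real.sqrt (q k) * Real.sqrt (q (k + 1)))
      (2 * (Real.sqrt p * Real.sqrt (1 - p))),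
    max (max 1 L1) (max (-Real.log p) (-Real.log (1 - p))), lt_min h.qcorr h.pcorr,
    (le_max_left _ _).trans (le_max_left _ _), ?_⟩
  exact ⟨h.qpos, h.qzero, h.qone, h.ppos, h.plt, min_le_left _ _, min_le_right _ _,
    fun k hk => (hL1 k hk).trans ((le_max_right _ _).trans (le_max_left _ _)),
    (le_max_left _ _).trans (le_max_right _ _), (le_max_right _ _).trans (le_max_right _ _)⟩

theorem isDecomp {E : Type} [NormedAddCommGroup E] [InnerProductSpace ℝ E]
    [FiniteDimensional ℝ E] {k : ℕ} {V : Fin k → Submodule ℝ E} (h : IsLinePlane V) :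
    Helper50.CG.IsDecomp V := ⟨h.orth, h.top, h.dim⟩

theorem all_angles (s : ℝ) (hs : 0 ≤ s) (hs1 : s ≤ 1) (q : ℤ → ℝ) (T : Finset ℤ) (p : ℝ)
    (h : Admissible s q T p) (ε : ℝ) (hε : 0 < ε) : ∃ K : ℝ, 0 < K ∧
    (∀ (E : Type) [NormedAddCommGroup E] [InnerProductSpace ℝ E] [FiniteDimensional ℝ E]
      (k : ℕ) (V : Fin k → Submodule ℝ E), IsLinePlane V → ∀ X : Finset E, IsCode s X →
      (X.card : ℝ) ≤ (profile V '' (X : Set E)).ncard *
        (K * Real.exp (numLines V * entropy2 p + numPlanes V * entropyZ q T + ε * k))) ∧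
    (∀ (E : Type) [NormedAddCommGroup E] [InnerProductSpace ℝ E] [FiniteDimensional ℝ E]
      (G : Subgroup (E ≃ₗᵢ[ℝ] E)), Commutative G → ∃ a b : ℕ, a + 2 * b = finrank ℝ E ∧
      ∀ X Y : Finset E, IsCode s X → Covered G X Y →
      (X.card : ℝ) ≤ Y.card *
        (K * Real.exp (a * entropy2 p + b * entropyZ q T + ε * finrank ℝ E))) := by
  obtain ⟨lam, L, h1, h2, h3⟩ := exists_para h
  obtain ⟨K, hK, hb⟩ := Helper50.CG.flat_bound q T p s lam L ε h3 hs h1 hs1 h2 hε
  refine ⟨K, hK, fun E _ _ _ k V hV X hX => hb E k V (isDecomp hV) X hX.1 hX.2, ?_⟩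
  intro E _ _ _ G hG
  obtain ⟨k, V, hV, hGV⟩ := Helper50.CG.exists_decomp G hG
  obtain ⟨hc1, hc2⟩ := hV.card_eq
  refine ⟨numLines V, numPlanes V, hc2, ?_⟩
  intro X Y hX hXY
  refine (hb E k V hV X hX.1 hX.2).trans ?_
  have h1 : (profile V '' (X : Set E)).ncard ≤ Y.card :=
    Helper50.CG.ncard_prof_le V G hGV X Y hXY
  have h2 : (k : ℝ) ≤ finrank ℝ E := by
    have : k ≤ finrank ℝ E := by omega
    exact_mod_cast this
  have h3 : ε * k ≤ ε * finrank ℝ E := mul_le_mul_of_nonneg_left h2 hε.le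
  have h4 : Real.exp (numLines V * entropy2 p + numPlanes V * entropyZ q T + ε * k) ≤
      Real.exp (numLines V * entropy2 p + numPlanes V * entropyZ q T + ε * finrank ℝ E) :=
    Real.exp_le_exp.2 (by linarith)
  have h5 : ((profile V '' (X : Set E)).ncard : ℝ) ≤ Y.card := by exact_mod_cast h1
  exact mul_le_mul h5 (mul_le_mul_of_nonneg_left h4 hK.le)
    (mul_nonneg hK.le (Real.exp_pos _).le) (Nat.cast_nonneg _)

theorem kissing_group : ∀ᶠ n : ℕ in atTop,
    ∀ G : Subgroup (EuclideanSpace ℝ (Fin n) ≃ₗᵢ[ℝ] EuclideanSpace ℝ (Fin n)), Commutative G →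
    ∀ X Y : Finset (EuclideanSpace ℝ (Fin n)), IsCode (1 / 2) X → Covered G X Y →
      (X.card : ℝ) ≤ Y.card * (2 : ℝ) ^ ((366 / 1000 : ℝ) * n) := by
  filter_upwards [Helper50.CG.kissing_prof] with n hn G hG X Y hX hXY
  obtain ⟨k, V, hV, hGV⟩ := Helper50.CG.exists_decomp G hG
  refine (hn k V hV X hX.1 hX.2).trans ?_
  have h1 : (Helper50.CG.prof V '' (X : Set (EuclideanSpace ℝ (Fin n)))).ncard ≤ Y.card :=
    Helper50.CG.ncard_prof_le V G hGV X Y hXY
  have h5 : ((Helper50.CG.prof V '' (X : Set (EuclideanSpace ℝ (Fin n)))).ncard : ℝ) ≤ Y.card := by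
    exact_mod_cast h1
  exact mul_le_mul_of_nonneg_right h5 (by positivity)

/-- groups with a commutative subgroup of finite index -/
theorem kissing_index : ∀ᶠ n : ℕ in atTop,
    ∀ G H : Subgroup (EuclideanSpace ℝ (Fin n) ≃ₗᵢ[ℝ] EuclideanSpace ℝ (Fin n)),
    Commutative G → G.relIndex H ≠ 0 →
    ∀ X Y : Finset (EuclideanSpace ℝ (Fin n)), IsCode (1 / 2) X → Covered H X Y →
      (X.card : ℝ) ≤ G.relIndex H * Y.card * (2 : ℝ) ^ ((366 / 1000 : ℝ) * n) := by
  classical
  filter_upwards [kissing_group] with n hn G H hG hind X Y hX hXY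
  set G' : Subgroup H := G.subgroupOf H with hG'
  have hfin : G'.index ≠ 0 := hind
  have : G'.FiniteIndex := ⟨hfin⟩
  have : Fintype (Quotient (QuotientGroup.rightRel G')) := by
    have h1 : Finite (H ⧸ G') := inferInstance
    have h2 : Finite (Quotient (QuotientGroup.rightRel G')) :=
      Finite.of_equiv _ (QuotientGroup.quotientRightRelEquivQuotientLeftRel G').symm
    exact Fintype.ofFinite _
  have hcard : Fintype.card (Quotient (QuotientGroup.rightRel G')) = G'.index := by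
    rw [Subgroup.index, ← Nat.card_eq_fintype_card]
    exact Nat.card_congr (QuotientGroup.quotientRightRelEquivQuotientLeftRel G')
  -- representatives
  let Z : Finset (EuclideanSpace ℝ (Fin n)) :=
    (Finset.univ ×ˢ Y).image
      (fun c : Quotient (QuotientGroup.rightRel G') × EuclideanSpace ℝ (Fin n) =>
        ((c.1.out : H) : EuclideanSpace ℝ (Fin n) ≃ₗᵢ[ℝ] EuclideanSpace ℝ (Fin n)) c.2)
  have hZ : Covered G X Z := by
    intro x hx
    obtain ⟨y, hy, h, hh, rfl⟩ := hXY x hx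
    set c : Quotient (QuotientGroup.rightRel G') := Quotient.mk _ (⟨h, hh⟩ : H) with hc
    refine ⟨(((c.out : H)) : EuclideanSpace ℝ (Fin n) ≃ₗᵢ[ℝ] EuclideanSpace ℝ (Fin n)) y,
      Finset.mem_image.2 ⟨(c, y), Finset.mem_product.2 ⟨Finset.mem_univ _, hy⟩, rfl⟩, ?_⟩
    have h1 : (QuotientGroup.rightRel G') c.out (⟨h, hh⟩ : H) :=
      Quotient.exact (Quotient.out_eq c)
    rw [QuotientGroup.rightRel_apply] at h1
    have h2 : h * (((c.out : H)) : EuclideanSpace ℝ (Fin n) ≃ₗᵢ[ℝ] EuclideanSpace ℝ (Fin n))⁻¹ ∈ G := h1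
    refine ⟨_, h2, ?_⟩
    simp
  have hle : Z.card ≤ G.relIndex H * Y.card := by
    refine Finset.card_image_le.trans ?_
    rw [Finset.card_product, Finset.card_univ, hcard]
    exact le_rfl
  refine (hn G hG X Z hX hZ).trans ?_
  have hle' : (Z.card : ℝ) ≤ G.relIndex H * Y.card := by exact_mod_cast hle
  exact mul_le_mul_of_nonneg_right hle' (by positivity)

/-- the orbit of a point under a cyclic group -/
theorem orbit_code {E : Type} [NormedAddCommGroup E] [InnerProductSpace ℝ E]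
    (g : E ≃ₗᵢ[ℝ] E) (x : E) (p : ℕ) (hp : 0 < p) (hx : ‖x‖ = 1) (hgx : (g ^ p) x = x)
    (h : ∀ k : ℕ, 0 < k → k < p → inner ℝ x ((g ^ k) x) ≤ 1 / 2) :
    ∃ X : Finset E, (X : Set E) = {y | ∃ k : ℤ, y = (g ^ k) x} ∧ IsCode (1 / 2) X ∧
      X.card = p := by
  classical
  have hadd : ∀ i j : ℕ, (g ^ (i + j)) x = (g ^ i) ((g ^ j) x) := by
    intro i j; rw [pow_add]; rfl
  have hij : ∀ i j : ℕ, i < j → j < p → inner ℝ ((g ^ i) x) ((g ^ j) x) ≤ 1 / 2 := by
    intro i j hij hj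
    obtain ⟨d, rfl⟩ := Nat.exists_eq_add_of_lt hij
    rw [show i + d + 1 = i + (d + 1) from rfl, hadd, (g ^ i).inner_map_map]
    exact h (d + 1) (Nat.succ_pos d) (by omega)
  have hinner : ∀ i j : ℕ, i < p → j < p → i ≠ j → inner ℝ ((g ^ i) x) ((g ^ j) x) ≤ 1 / 2 := by
    intro i j hi hj hne
    rcases lt_or_gt_of_ne hne with h1 | h1
    · exact hij i j h1 hj
    · rw [real_inner_comm]; exact hij j i h1 hi
  have hnorm : ∀ i : ℕ, ‖(g ^ i) x‖ = 1 := fun i => by rw [(g ^ i).norm_map, hx]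
  have hinj : ∀ i j : ℕ, i < p → j < p → (g ^ i) x = (g ^ j) x → i = j := by
    intro i j hi hj he
    by_contra hne
    have h1 := hinner i j hi hj hne
    rw [he, real_inner_self_eq_norm_sq, hnorm j] at h1
    norm_num at h1
  refine ⟨(Finset.range p).image (fun k => (g ^ k) x), ?_, ⟨?_, ?_⟩, ?_⟩
  · ext y
    rw [Finset.coe_image]
    constructor
    · rintro ⟨k, _, rfl⟩
      exact ⟨k, by simp⟩
    · rintro ⟨k, rfl⟩
      have hmul : ∀ m : ℕ, ((g ^ p) ^ m) x = x := by
        intro m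
        induction m with
        | zero => simp
        | succ m ih => rw [pow_succ', LinearIsometryEquiv.coe_mul, Function.comp_apply, ih, hgx]
      have hzmul : ∀ m : ℤ, ((g ^ p) ^ m) x = x := by
        intro m
        rcases Int.eq_nat_or_neg m with ⟨m, rfl | rfl⟩
        · simpa using hmul m
        · have h1 := hmul m
          rw [zpow_neg, zpow_natCast]
          conv_lhs => rw [← h1]
          exact ((g ^ p) ^ m).symm_apply_apply x
      have hp' : (p : ℤ) ≠ 0 := by exact_mod_cast hp.ne'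
      obtain ⟨r, hr⟩ := Int.eq_ofNat_of_zero_le (Int.emod_nonneg k hp')
      have hrlt : r < p := by
        have := Int.emod_lt_of_pos k (by exact_mod_cast hp : (0 : ℤ) < p)
        rw [hr] at this
        exact_mod_cast this
      refine ⟨r, Finset.mem_coe.2 (Finset.mem_range.2 hrlt), ?_⟩
      have hk : k = (r : ℤ) + (p : ℤ) * (k / p) := by
        have := Int.emod_add_mul_ediv k p
        omega
      have h2 : (g ^ k) x = (g ^ r) (((g ^ p) ^ (k / (p : ℤ))) x) := by
        conv_lhs => rw [hk]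
        rw [zpow_add, zpow_mul, zpow_natCast, zpow_natCast]
        rfl
      show (g ^ r) x = (g ^ k) x
      rw [h2, hzmul]
  · intro y hy
    obtain ⟨i, _, rfl⟩ := Finset.mem_image.1 hy
    exact hnorm i
  · intro y hy z hz hyz
    obtain ⟨i, hi, rfl⟩ := Finset.mem_image.1 hy
    obtain ⟨j, hj, rfl⟩ := Finset.mem_image.1 hz
    exact hinner i j (Finset.mem_range.1 hi) (Finset.mem_range.1 hj) (fun h => hyz (by rw [h]))
  · rw [Finset.card_image_of_injOn, Finset.card_range]
    intro i hi j hj he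
    exact hinj i j (Finset.mem_range.1 (Finset.mem_coe.1 hi))
      (Finset.mem_range.1 (Finset.mem_coe.1 hj)) he

/-- **Main result.** -/
theorem result :
    (∀ (s : ℝ), 0 ≤ s → s < 1 → ∀ (q : ℤ → ℝ) (T : Finset ℤ) (p : ℝ), Admissible s q T p →
      ∀ ε : ℝ, 0 < ε → ∃ K : ℝ, 0 < K ∧
      (∀ (E : Type) [NormedAddCommGroup E] [InnerProductSpace ℝ E] [FiniteDimensional ℝ E]
        (k : ℕ) (V : Fin k → Submodule ℝ E), IsLinePlane V → ∀ X : Finset E, IsCode s X →
        (X.card : ℝ) ≤ (profile V '' (X : Set E)).ncard *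
          (K * Real.exp (numLines V * entropy2 p + numPlanes V * entropyZ q T + ε * k))) ∧
      (∀ (E : Type) [NormedAddCommGroup E] [InnerProductSpace ℝ E] [FiniteDimensional ℝ E]
        (G : Subgroup (E ≃ₗᵢ[ℝ] E)), Commutative G → ∃ a b : ℕ, a + 2 * b = finrank ℝ E ∧
        ∀ X Y : Finset E, IsCode s X → Covered G X Y →
        (X.card : ℝ) ≤ Y.card *
          (K * Real.exp (a * entropy2 p + b * entropyZ q T + ε * finrank ℝ E)))) ∧
    (∀ᶠ n : ℕ in atTop,
      (∀ (k : ℕ) (V : Fin k → Submodule ℝ (EuclideanSpace ℝ (Fin n))), IsLinePlane V →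
        ∀ X : Finset (EuclideanSpace ℝ (Fin n)), IsCode (1 / 2) X →
        (X.card : ℝ) ≤ (profile V '' (X : Set (EuclideanSpace ℝ (Fin n)))).ncard *
          (2 : ℝ) ^ ((366 / 1000 : ℝ) * n)) ∧
      (∀ G H : Subgroup (EuclideanSpace ℝ (Fin n) ≃ₗᵢ[ℝ] EuclideanSpace ℝ (Fin n)),
        Commutative G → G.relIndex H ≠ 0 →
        ∀ X Y : Finset (EuclideanSpace ℝ (Fin n)), IsCode (1 / 2) X → Covered H X Y →
        (X.card : ℝ) ≤ G.relIndex H * Y.card * (2 : ℝ) ^ ((366 / 1000 : ℝ) * n)) ∧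
      (∃ (g : EuclideanSpace ℝ (Fin n) ≃ₗᵢ[ℝ] EuclideanSpace ℝ (Fin n))
        (x : EuclideanSpace ℝ (Fin n)) (X : Finset (EuclideanSpace ℝ (Fin n))),
        (X : Set (EuclideanSpace ℝ (Fin n))) = {y | ∃ k : ℤ, y = (g ^ k) x} ∧
        IsCode (1 / 2) X ∧ X.card.Prime ∧ (2 : ℝ) ^ ((19 / 100 : ℝ) * n) ≤ X.card)) := by
  refine ⟨fun s hs hs1 q T p h ε hε => all_angles s hs hs1.le q T p h ε hε, ?_⟩
  filter_upwards [Helper50.CG.kissing_prof, kissing_index, Helper50.CG.cyclic_orbits]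
    with n h1 h2 h3
  refine ⟨fun k V hV X hX => h1 k V ⟨hV.orth, hV.top, hV.dim⟩ X hX.1 hX.2, h2, ?_⟩
  obtain ⟨g, x, p, hp, hx, hgx, hpn, hin⟩ := h3
  obtain ⟨X, hX1, hX2, hX3⟩ := orbit_code g x p hp.pos hx hgx hin
  exact ⟨g, x, X, hX1, hX2, by rw [hX3]; exact hp, by rw [hX3]; exact hpn⟩

end Pool.Agent.Results.MP_b5f63d_co.CommutativeSymmetry
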