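import Pool.Agent.Helper57.KS.RFinal

/-!
# Kissing configurations in random sets of points

Let `x 1, …, x N` be independent uniform points of the unit sphere of `ℝⁿ` and let `best` be the
largest number of them which have pairwise angles at least `θ` (for `θ = π/3`: which form a kissing
configuration). Let `Δ` be the probability of a cap of angular radius `θ`; the lower bound of Wyner
for the largest codes is of the order `1 / Δ`, and the best known lower bounds are of the order
`n / Δ`. We show that `best` is of the order `n / Δ`, with probability superexponentially close to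
`1`, for all `N` between `e^(δn) / Δ` and `e^((K(θ) - ε) n) / Δ`, where `K(θ)` is half the difference
of the exponents of Kabatiansky–Levenshtein and of Wyner. So sets of at most `2^(0.302 n)` random
points contain no better kissing configurations than those of Wyner, and all sets of at least
`2^(0.208 n)` random points contain these. There are also bounds for all other `N`.

The upper bounds are first moment bounds; they use the estimates of the library for the probability
that `k` random points form a code. For the lower bounds we consider blocks of points for which the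
graph of the pairs with an angle less than `θ` has few triangles, and use the method of Ajtai,
Komlós and Szemerédi (module `AKS`, by helper45).
-/

set_option autoImplicit false

open MeasureTheory Set Filter
open scoped ENNReal Topology
open Pool.Agent.Results.MP_b5f63d_co.MeanFieldConfigurations
open Pool.Agent.Helper57.KR

namespace Pool.Agent.Results.MP_b5f63d_co.RandomPoints

theorem result :
    -- (1) the order of magnitude
    (∀ θ δ ε : ℝ, 0 < θ → θ < Real.pi / 2 → 0 < δ → 0 < ε → ∃ a A : ℝ, 0 < a ∧ 0 < A ∧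
      ∀ᶠ n : ℕ in atTop, ∀ (x₀ : S n) (N : ℕ),
        Real.exp (δ * n) / cap n θ x₀ ≤ N → N ≤ Real.exp ((K θ - ε) * n) / cap n θ x₀ →
        (law n N).real {x | ¬ (a * n / cap n θ x₀ ≤ best θ x ∧
          best θ x ≤ A * n / cap n θ x₀)} ≤ Real.exp (-Real.exp (a * n))) ∧
    -- (2) the constant in the lower bound
    (∀ θ σ η : ℝ, 0 < θ → θ < Real.pi / 2 → 0 < σ → 0 < η → 2 * σ < L θ →
      ∀ᶠ n : ℕ in atTop, ∀ (x₀ : S n) (N : ℕ), Real.exp ((σ + η) * n) / cap n θ x₀ ≤ N →
        (law n N).real {x | (best θ x : ℝ) < σ * n / (256 * cap n θ x₀)} ≤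
          Real.exp (-Real.exp (η / 2 * n))) ∧
    -- (3) the constant in the upper bound
    (∀ θ σ ε : ℝ, 0 < θ → θ < Real.pi / 2 → 0 ≤ σ → 0 < ε → 2 * σ + ε < X θ →
      ∃ c : ℝ, 0 < c ∧ ∀ᶠ n : ℕ in atTop, ∀ (x₀ : S n) (N : ℕ),
        N ≤ Real.exp (σ * n) / cap n θ x₀ →
        (law n N).real {x | (2 * σ + ε) * n / cap n θ x₀ < best θ x} ≤
          Real.exp (-Real.exp (c * n))) ∧
    -- (4) a lower bound for all intensities
    (∀ θ : ℝ, 0 < θ → θ < Real.pi / 2 → ∀ᶠ n : ℕ in atTop, ∀ (x₀ : S n) (N : ℕ),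
      1 / cap n θ x₀ ≤ N → (law n N).real {x | (best θ x : ℝ) < 1 / (8 * cap n θ x₀)} ≤
        (1 / 2 : ℝ) ^ (N * cap n θ x₀)) ∧
    -- (5) an upper bound for all intensities
    (∀ θ ε : ℝ, 0 < θ → θ < Real.pi / 2 → 0 < ε → ∃ c : ℝ, 0 < c ∧ ∀ᶠ n : ℕ in atTop,
      ∀ (x₀ : S n) (N : ℕ) (s : ℝ), N ≤ Real.exp (s * n) / cap n θ x₀ →
        (law n N).real {x | Real.exp ((max 0 (s - K θ) + ε) * n) / cap n θ x₀ < best θ x} ≤
          Real.exp (-Real.exp (c * n))) ∧
    -- (6) the exponent of the caps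
    (∀ θ ε : ℝ, 0 < θ → θ < Real.pi / 2 → 0 < ε → ∀ᶠ n : ℕ in atTop, ∀ x₀ : S n,
      Real.exp ((Real.log (Real.sin θ) - ε) * n) ≤ cap n θ x₀ ∧
        cap n θ x₀ ≤ Real.exp ((Real.log (Real.sin θ) + ε) * n)) ∧
    -- (7) kissing configurations
    (∀ ε : ℝ, 0 < ε → ∃ a : ℝ, 0 < a ∧ ∀ᶠ n : ℕ in atTop, ∀ N : ℕ,
      (2 : ℝ) ^ ((0.208 : ℝ) * n) ≤ N → N ≤ (2 : ℝ) ^ ((0.302 : ℝ) * n) →
      (law n N).real {x | ε < |Real.logb 2 (best (Real.pi / 3) x) / n -
        Real.logb 2 (2 / Real.sqrt 3)|} ≤ Real.exp (-Real.exp (a * n))) :=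
  ⟨fun _ _ _ h1 h2 h3 h4 => window h1 h2 h3 h4,
    fun _ _ _ h1 h2 h3 h4 h5 => lower_log h1 h2 h3 h4 h5,
    fun _ _ _ h1 h2 h3 h4 h5 => upper_sharp h1 h2 h3 h4 h5,
    fun _ h1 h2 => lower_all h1 h2,
    fun _ _ h1 h2 h3 => upper_all h1 h2 h3,
    fun _ _ h1 h2 h3 => cap_exponent h1 h2 h3,
    fun _ h => kissing_window h⟩

end Pool.Agent.Results.MP_b5f63d_co.RandomPoints
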