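import Pool.Agent.Helper57.KS.Final

/-!
# Almost regular simplices in kissing configurations and spherical codes

Finite sets of unit vectors of `ℝⁿ`, `n → ∞`; kissing configurations are the case of pairwise inner
products at most `1/2`.

* Every finite set `C` of unit vectors has a part `T` of almost the same size, `|T| ≥ 2^(-κn) |C|`,
  such that all but an exponentially small proportion of the pairs of points of `T` have almost the
  same inner product `γ`. The same is possible with `γ ≥ s`, for every `s < 1`, with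
  `|T| ≥ 2^(-κn) (1 - s)^(n/2) |C|`, which is the expected number of points in a cap of Euclidean
  radius `√(1 - s)`.
* Consequently `C` is a disjoint union of exponentially large almost regular simplices (all inner
  products within `ε` of one number `γ ≥ s`) and of fewer than `2^(cn)` further points, if
  `c > -(1/2) log₂ (1 - s)`. For kissing configurations with at least `2^(cn)` points the simplices
  have at least `2^(ζn)` points for every `ζ < ε² (c + (1/2) log₂ (1 - s)) / 14`.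
* The bound `-(1/2) log₂ (1 - s)` is sharp for all kissing configurations (and codes of angle `θ`)
  with exponent at most `log₂ (2/√3)` (`log₂ (1/sin θ)`): the bound of Wyner. Near-optimal kissing
  configurations have exponentially large almost regular simplices with `γ ≥ s`, for all `s < 1/4`.

Proof idea. Let `N(r)` be the largest number of points of `C` in a ball of radius `r`. Consider a
ball of radius `r` with centre `c` and `N(r)` points of `C`. If `N(√(1 - ε²) r)` is smaller by an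
exponential factor, then most points are near the boundary of the ball, and `|⟨x - c, y - c⟩| ≥ ε r²`
holds for few pairs, because the part of the ball beyond a hyperplane at the distance `ε r` from `c`
is contained in a ball of radius `√(1 - ε²) r`. So most pairs have distance about `√2 r`. We take the
first of the boundedly many scales `r` with this property.
-/

set_option autoImplicit false

open MeasureTheory Metric Filter Set
open scoped Topology RealInnerProductSpace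
open Pool.Agent.H818R2 Pool.Agent.Helper57.KS

namespace Pool.Agent.Results.MP_b5f63d_co.RegularSimplices

theorem result :
    -- (1) a part of almost the same size with almost constant inner products, in all dimensions
    (∀ (n : ℕ) (κ ε : ℝ), 0 ≤ κ → 0 < ε → ε ≤ 1 → ∀ C : Finset (EuclideanSpace ℝ (Fin n)),
      (∀ x ∈ C, ‖x‖ = 1) → C.Nonempty → ∃ T ⊆ C, ∃ γ : ℝ, 0 ≤ γ ∧ γ ≤ 1 ∧
        (2 : ℝ) ^ (-κ * n) * C.card ≤ T.card ∧
        ((bad T γ ε : ℕ) : ℝ) ≤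
          4 * (2 : ℝ) ^ (-(κ * (ε ^ 2 / (9 * Real.log (2 / ε) + ε ^ 2))) * n) * T.card ^ 2) ∧
    -- (2) the same with `γ ≥ s`, and a large simplex
    (∀ s κ ε : ℝ, 0 ≤ s → s < 1 → 0 < κ → 0 < ε → ∃ ζ : ℝ, 0 < ζ ∧ ∀ᶠ n : ℕ in atTop,
      ∀ C : Finset (EuclideanSpace ℝ (Fin n)), (∀ x ∈ C, ‖x‖ = 1) → C.Nonempty →
        ∃ T ⊆ C, ∃ γ : ℝ, s ≤ γ ∧ γ ≤ 1 ∧
          (2 : ℝ) ^ (-κ * n) * √(1 - s) ^ n * C.card ≤ T.card ∧
          ((bad T γ ε : ℕ) : ℝ) ≤ (2 : ℝ) ^ (-ζ * n) * T.card ^ 2 ∧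
          ∃ S ⊆ T, min (T.card : ℝ) ((2 : ℝ) ^ (ζ * n)) ≤ S.card ∧ AlmostRegular S γ ε) ∧
    -- (3) decomposition in exponentially large simplices, up to fewer than `2 ^ (c n)` points
    (∀ s c ε : ℝ, 0 ≤ s → s < 1 → 0 < ε → -(1 / 2) * Real.logb 2 (1 - s) < c →
      ∃ ζ : ℝ, 0 < ζ ∧ ∀ᶠ n : ℕ in atTop, ∀ C : Finset (EuclideanSpace ℝ (Fin n)),
        (∀ x ∈ C, ‖x‖ = 1) → ∃ F : Finset (Finset (EuclideanSpace ℝ (Fin n))),
          (F : Set (Finset (EuclideanSpace ℝ (Fin n)))).PairwiseDisjoint id ∧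
          (∀ S ∈ F, S ⊆ C ∧ (2 : ℝ) ^ (ζ * n) ≤ S.card ∧
            ∃ γ : ℝ, s ≤ γ ∧ γ ≤ 1 ∧ AlmostRegular S γ ε) ∧
          (Set.ncard {x | x ∈ C ∧ ∀ S ∈ F, x ∉ S} : ℝ) < (2 : ℝ) ^ (c * n)) ∧
    -- (4) kissing configurations, with an explicit exponent
    (∀ s c ε ζ : ℝ, 0 ≤ s → s ≤ 1 / 2 → 0 < ε → ε ≤ 1 → 0 < ζ →
      ζ < ε ^ 2 / 14 * (c + 1 / 2 * Real.logb 2 (1 - s)) →
      ∀ᶠ n : ℕ in atTop, ∀ P : Finset (EuclideanSpace ℝ (Fin n)), IsSphCode n (Real.pi / 3) P →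
        (2 : ℝ) ^ (c * n) ≤ P.card →
        ∃ S ⊆ P, ∃ γ : ℝ, s ≤ γ ∧ γ ≤ 1 / 2 ∧ (2 : ℝ) ^ (ζ * n) ≤ S.card ∧
          AlmostRegular S γ ε) ∧
    -- (5) sharpness
    (∀ θ φ δ : ℝ, 0 < θ → θ ≤ Real.pi / 2 → 0 < φ → φ ≤ Real.pi / 2 →
      Real.cos φ ≤ Real.cos θ ^ 2 → 0 < δ → ∃ K : ℕ, ∀ᶠ n : ℕ in atTop,
      ∃ P : Finset (EuclideanSpace ℝ (Fin n)), IsSphCode n θ P ∧
        (2 : ℝ) ^ ((-(1 / 2) * Real.logb 2 (1 - Real.cos φ) - δ) * n) ≤ P.card ∧
        ∀ S ⊆ P, K < S.card → ∃ x ∈ S, ∃ y ∈ S, x ≠ y ∧ ⟪x, y⟫ ≤ Real.cos φ) ∧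
    -- (6) near-optimal codes
    (∀ θ s ε : ℝ, 0 < θ → θ < Real.pi / 2 → 0 ≤ s → s < Real.cos θ ^ 2 → 0 < ε →
      ∃ η : ℝ, 0 < η ∧ ∀ᶠ n : ℕ in atTop, ∀ P : Finset (EuclideanSpace ℝ (Fin n)),
        IsSphCode n θ P → (2 : ℝ) ^ (-η * n) * sphMax n θ ≤ P.card →
        ∃ S ⊆ P, ∃ γ : ℝ, s ≤ γ ∧ γ ≤ Real.cos θ ∧ (2 : ℝ) ^ (η * n) ≤ S.card ∧
          AlmostRegular S γ ε) :=
  ⟨fun _ _ _ h1 h2 h3 _ h4 h5 => uniform_all h4 h5 h1 h2 h3,
    fun _ _ _ h1 h2 h3 h4 => uniform_local h1 h2 h3 h4,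
    fun _ _ _ h1 h2 h3 h4 => partition h1 h2 h3 h4,
    fun _ _ _ _ h1 h2 h3 h4 h5 h6 => kissing_simplex h1 h2 h3 h4 h6 h5,
    fun _ _ _ h1 h2 h3 h4 h5 h6 => sharp h1 h2 h3 h4 h5 h6,
    fun _ _ _ h1 h2 h3 h4 h5 => near_opt h1 h2 h3 h4 h5⟩

end Pool.Agent.Results.MP_b5f63d_co.RegularSimplices
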