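import Pool.Agent.Helper46.KS.Main

/-!
# Kissing configurations with symmetry groups which contain elements of small moved space

`E n` is Euclidean `n`-space and `Isom n` the type of its linear isometries. The moved space
`moved g` of `g` is the orthogonal complement of the space of the fixed vectors, `mdim g` is its
dimension. A finite set `X` of unit vectors at mutual angles at least `θ` is a spherical code
(`IsSphCode n θ X`), the maximal number of points is `sphMax n θ`; `kissing n = sphMax n (π / 3)` is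
the kissing number and `cplus` the upper growth rate `limsup log_2 kissing n / n`.

The bound. Suppose that `X` is mapped into itself by isometries `u i`, that
`‖P_V v‖² ≤ ∑ w i ‖u i v - v‖² ≤ b ‖P_V v‖²` for all `v`, and that `mdim (u i) ≤ d` and
`‖u i - 1‖² ≤ l`. Let `F` be a space which contains the orthogonal complement of `V`, and has
dimension `f` more. The displacements of the points of `X` in `F` have sum at most `b |X ∩ F|`; a
point which is moved has displacement at least `4 sin² (θ / 2)`. The mean of the displacements of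
orthonormal vectors of `F` is at least `f`; and it is bounded by `l` times the numbers by which the
dimension of `F` decreases when we pass to the fixed vectors of `u i`. So for some `i` the
dimension decreases by `r ≥ 1`, and at most the part `l b r / (4 f sin² (θ / 2))` of the points is
lost. This is repeated as long as `f > t d`.
-/

open Module Filter
open scoped InnerProductSpace Topology

namespace Pool.Agent.Results.MP_b5f63d_co.SymmetryGroups

open Pool.Agent.H818R2 Pool.Agent.H161R2.KissSym Pool.Agent.R117.HS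

/-- the subspaces of `ℝⁿ` -/
abbrev Sub (n : ℕ) := Submodule ℝ (E n)

/-- the groups of linear isometries of `ℝⁿ` -/
abbrev Grp (n : ℕ) := Subgroup (Isom n)

/-- the image of the vector `x` under the isometry `h` -/
noncomputable def app {n : ℕ} (h : Isom n) (x : E n) : E n := h x

/-- the squared displacement `‖h x - x‖²` -/
noncomputable def disp {n : ℕ} (h : Isom n) (x : E n) : ℝ := ‖app h x - x‖ ^ 2

/-- the squared length of the projection of `x` to `V` -/
noncomputable def projSq {n : ℕ} (V : Sub n) (x : E n) : ℝ := ‖V.starProjection x‖ ^ 2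

/-- the weighted sum of the squared displacements of `x` -/
noncomputable def dispSum {n : ℕ} {ι : Type} [Fintype ι] (u : ι → Isom n) (w : ι → ℝ) (x : E n) :
    ℝ := ∑ i, w i * disp (u i) x

/-- the weights are positive and `‖P_V x‖² ≤ ∑ w i ‖u i x - x‖² ≤ b ‖P_V x‖²` for all `x` -/
def FrameFor {n : ℕ} (V : Sub n) {ι : Type} [Fintype ι] (u : ι → Isom n) (w : ι → ℝ) (b : ℝ) :
    Prop :=
  (∀ i, 0 < w i) ∧ ∀ x : E n, projSq V x ≤ dispSum u w x ∧ dispSum u w x ≤ b * projSq V x

/-- `‖h - 1‖² ≤ l` -/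
def DispLe {n : ℕ} (h : Isom n) (l : ℝ) : Prop := ∀ x : E n, disp h x ≤ l * ‖x‖ ^ 2

/-- `h` maps `W` into itself -/
def MapsIn {n : ℕ} (h : Isom n) (W : Sub n) : Prop := ∀ x ∈ W, app h x ∈ W

/-- the subspace `W` is invariant under the group `G` -/
def Inv {n : ℕ} (G : Grp n) (W : Sub n) : Prop := ∀ h ∈ G, MapsIn h W

/-- the group `G` is irreducible on `ℝⁿ` -/
def Irred {n : ℕ} (G : Grp n) : Prop := ∀ W : Sub n, Inv G W → W = ⊥ ∨ W = ⊤

/-- `h ≠ 1` moves at most `d` dimensions, and `‖h - 1‖² ≤ l` -/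
def Small {n : ℕ} (d : ℕ) (l : ℝ) (h : Isom n) : Prop := h ≠ 1 ∧ mdim h ≤ d ∧ DispLe h l

/-- the moved space of `h` is contained in `W` -/
def MovedIn {n : ℕ} (h : Isom n) (W : Sub n) : Prop := moved h ≤ W

/-- every nonzero invariant subspace `W` of `V` contains the moved space of an element `h ≠ 1` of
`G` with `‖h - 1‖² ≤ l` which moves at most `d` dimensions -/
def Rich {n : ℕ} (G : Grp n) (d : ℕ) (l : ℝ) (V : Sub n) : Prop :=
  ∀ W : Sub n, W ≤ V → W ≠ ⊥ → Inv G W → ∃ h ∈ G, Small d l h ∧ MovedIn h W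

/-- `g` maps `X` into itself -/
def Keeps {n : ℕ} (g : Isom n) (X : Finset (E n)) : Prop := ∀ x ∈ X, app g x ∈ X

/-- every element of `G` maps `X` into itself -/
def KeptBy {n : ℕ} (G : Grp n) (X : Finset (E n)) : Prop := ∀ g ∈ G, Keeps g X

/-- unit vectors at mutual angles at least `π / 3` -/
def Kiss {n : ℕ} (X : Finset (E n)) : Prop := IsSphCode n (Real.pi / 3) X

/-- the dimension of `V`, or `1` if that is zero -/
noncomputable def dim1 {n : ℕ} (V : Sub n) : ℕ := max 1 (finrank ℝ V)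

/-- the codimension of `V` -/
noncomputable def codim {n : ℕ} (V : Sub n) : ℕ := finrank ℝ Vᗮ

/-- the dimension of the space of the vectors which are fixed by all `s ∈ S` -/
noncomputable def fixDim {n : ℕ} (S : Set (Isom n)) : ℕ := finrank ℝ (fixSp S)

/-- `G` is finite and rich in elements of small moved space for the invariant subspace `V` -/
def RichFor {n : ℕ} (G : Grp n) (d : ℕ) (l : ℝ) (V : Sub n) : Prop :=
  Finite G ∧ Inv G V ∧ Rich G d l V

/-- (1) systems of isometries with the frame property -/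
def Frames : Prop := ∀ θ b l t : ℝ, 0 < θ → θ ≤ Real.pi → 1 ≤ t →
  l * b / (4 * Real.sin (θ / 2) ^ 2) < t → ∃ κ : ℕ, ∀ (n d : ℕ) (V : Sub n) (ι : Type)
  (_ : Fintype ι) (u : ι → Isom n) (w : ι → ℝ), FrameFor V u w b →
  (∀ i, mdim (u i) ≤ d ∧ DispLe (u i) l) → ∀ X : Finset (E n), IsSphCode n θ X →
  (∀ i, Keeps (u i) X) → (X.card : ℝ) ≤ (dim1 V : ℝ) ^ κ * sphMax (codim V + ⌊t * d⌋₊) θ

/-- (2) finite groups rich in elements of small moved space: all angles -/
def RichGroups : Prop := ∀ θ l t : ℝ, 0 < θ → θ ≤ Real.pi → 1 ≤ t →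
  l / (4 * Real.sin (θ / 2) ^ 2) < t → ∃ κ : ℕ, ∀ (n d : ℕ) (V : Sub n) (G : Grp n),
  RichFor G d l V → ∀ X : Finset (E n), IsSphCode n θ X → KeptBy G X →
  (X.card : ℝ) ≤ (dim1 V : ℝ) ^ κ * sphMax (codim V + ⌊t * d⌋₊) θ

/-- (3) finite groups rich in elements of small moved space: kissing configurations -/
def RichKissing : Prop := ∀ (n d : ℕ) (V : Sub n) (G : Grp n), RichFor G d 4 V →
  ∀ X : Finset (E n), Kiss X → KeptBy G X → X.card ≤ dim1 V ^ 8 * kissing (codim V + 5 * d)

/-- (4) irreducible groups, one element of which moves a small space -/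
def Irreducible : Prop := ∀ (n : ℕ) (G : Grp n), Irred G → ∀ X : Finset (E n),
  Kiss X → KeptBy G X → ∀ g ∈ G, g ≠ 1 → X.card ≤ n ^ 8 * kissing (5 * mdim g)

/-- (5) the growth rate for rich groups -/
def RichGrowth : Prop := ∀ l ε : ℝ, 1 ≤ l → 0 < ε → ∀ᶠ n : ℕ in atTop, ∀ (G : Grp n) (d : ℕ)
  (V : Sub n), RichFor G d l V → ∀ X : Finset (E n), Kiss X → KeptBy G X →
  (X.card : ℝ) ≤ (2 : ℝ) ^ (cplus * (codim V + l * d) + ε * n)

/-- (6) the growth rate for irreducible groups -/
def IrredGrowth : Prop := ∀ l ε : ℝ, 0 < ε → ∀ᶠ n : ℕ in atTop, ∀ G : Grp n, Irred G →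
  ∀ X : Finset (E n), Kiss X → KeptBy G X → ∀ g ∈ G, g ≠ 1 → DispLe g l →
  (X.card : ℝ) ≤ (2 : ℝ) ^ (cplus * (l * mdim g) + ε * n)

/-- (7) configurations with a rich group are exponentially smaller than the largest ones -/
def RichFewer : Prop := ∀ l : ℝ, 1 ≤ l → ∀ᶠ n : ℕ in atTop, ∀ (G : Grp n) (d : ℕ) (V : Sub n),
  RichFor G d l V → (codim V : ℝ) + l * d ≤ 52 / 100 * n → ∀ X : Finset (E n), Kiss X →
  KeptBy G X → (X.card : ℝ) ≤ (2 : ℝ) ^ (-(n : ℝ) / 1000) * kissing n

/-- (8) the same for irreducible groups, one element of which moves a small space -/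
def IrredFewer : Prop := ∀ l : ℝ, ∀ᶠ n : ℕ in atTop, ∀ G : Grp n, Irred G → ∀ X : Finset (E n),
  Kiss X → KeptBy G X → ∀ g ∈ G, g ≠ 1 → DispLe g l → l * mdim g ≤ 52 / 100 * n →
  (X.card : ℝ) ≤ (2 : ℝ) ^ (-(n : ℝ) / 1000) * kissing n

/-- (9) `‖g - 1‖² ≤ 4` holds always, and `‖g - 1‖² ≤ 3` for `g³ = 1` -/
def Displacements : Prop := ∀ (n : ℕ) (g : Isom n), DispLe g 4 ∧ (g ^ 3 = 1 → DispLe g 3)

/-- (10) finite reflection groups: `S` consists of reflections, `f` is the dimension of the space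
of the vectors which are fixed by the group generated by `S`; the upper bound -/
def Reflections : Prop := ∀ (n : ℕ) (S : Set (Isom n)), (∀ s ∈ S, mdim s = 1) →
  Finite (Subgroup.closure S) → ∀ f : ℕ, fixDim S = f → f + 4 ≤ n →
  ∀ X : Finset (E n), Kiss X → (∀ s ∈ S, Keeps s X) →
    X.card ≤ (n - f).choose 4 * kissing (f + 4) ∧
    (4 ≤ f → X.card ≤ 16 ^ 4 * (n - f).choose 4 * kissing f)

/-- (11) the lower bound for the same class of configurations -/
def ReflectionsLower : Prop := ∀ (n : ℕ) (S : Set (Isom n)),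
  ∃ X : Finset (E n), Kiss X ∧ (∀ s ∈ S, Keeps s X) ∧ X.card = kissing (fixDim S)

theorem sin_half_pos {θ : ℝ} (h0 : 0 < θ) (h1 : θ ≤ Real.pi) : 0 < Real.sin (θ / 2) :=
  Real.sin_pos_of_pos_of_lt_pi (by linarith) (by linarith [Real.pi_pos])

theorem frame_of {n : ℕ} {V : Sub n} {ι : Type} [Fintype ι] {u : ι → Isom n} {w : ι → ℝ} {b : ℝ}
    (h : FrameFor V u w b) : Pool.Agent.Helper46.KS.Frame V u w b :=
  ⟨h.1, fun v => (h.2 v).1, fun v => (h.2 v).2⟩

theorem rich_of {n : ℕ} {G : Grp n} {d : ℕ} {l : ℝ} {V : Sub n} (h : Rich G d l V) :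
    Pool.Agent.Helper46.KS.Rich G d l V := by
  intro W hW hW0 hI
  obtain ⟨k, hk, hs, hm⟩ := h W hW hW0 hI
  exact ⟨k, hk, hs.1, hs.2.1, hs.2.2, hm⟩

open Pool.Agent.Helper46.KS in
/-- **Kissing configurations with symmetry groups containing elements of small moved space.** -/
theorem result : (Frames ∧ RichGroups ∧ RichKissing ∧ Irreducible) ∧
    (RichGrowth ∧ IrredGrowth ∧ RichFewer ∧ IrredFewer) ∧
    Displacements ∧ Reflections ∧ ReflectionsLower := by
  refine ⟨⟨?_, ?_, ?_, ?_⟩, ⟨?_, ?_, ?_, ?_⟩, ?_, ?_, ?_⟩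
  · intro θ b l t h0 h1 ht hlt
    obtain ⟨κ, hκ⟩ := exists_exponent ht hlt
    exact ⟨κ, fun n d V ι _ u w hF hu X hX hk => count (frame_of hF) (fun i => (hu i).2)
      (sin_half_pos h0 h1) hX hk (fun i => (hu i).1) ht hκ⟩
  · intro θ l t h0 h1 ht hlt
    obtain ⟨κ, hκ⟩ := exists_exponent (c := l * 1 / (4 * Real.sin (θ / 2) ^ 2)) ht
      (by rwa [mul_one])
    refine ⟨κ, fun n d V G hG X hX hk => ?_⟩
    obtain ⟨hfin, hV, hR⟩ := hG
    exact rich_bound G hV (rich_of hR) (sin_half_pos h0 h1) hX hk ht hκ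
  · intro n d V G hG X hX hk
    obtain ⟨hfin, hV, hR⟩ := hG
    have h := rich_bound G hV (rich_of hR) sin_kiss_pos hX hk (t := 5) (by norm_num) pow_eight
    have e : ⌊(5 : ℝ) * d⌋₊ = 5 * d := by
      have : (5 : ℝ) * d = ((5 * d : ℕ) : ℝ) := by push_cast; ring
      rw [this, Nat.floor_natCast]
    rw [e] at h
    exact_mod_cast h
  · intro n G hG X hX hk g hg h1
    have h := irred_bound hG hg h1 (dispLe_four g) sin_kiss_pos hX hk (t := 5) (by norm_num)
      pow_eight
    have e : ⌊(5 : ℝ) * mdim g⌋₊ = 5 * mdim g := by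
      have : (5 : ℝ) * mdim g = ((5 * mdim g : ℕ) : ℝ) := by push_cast; ring
      rw [this, Nat.floor_natCast]
    rw [e] at h
    exact_mod_cast h
  · intro l ε hl hε
    filter_upwards [rich_growth hl hε] with n h1 G d V hG X hX hk
    exact h1 G hG.1 d V hG.2.1 (rich_of hG.2.2) X hX hk
  · intro l ε hε
    filter_upwards [irred_growth l hε] with n h2 G hG X hX hk g hg hg1 hd
    exact h2 G hG X hX hk g hg hg1 hd
  · intro l hl
    filter_upwards [rich_fewer hl] with n h1 G d V hG hle X hX hk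
    exact h1 G hG.1 d V hG.2.1 (rich_of hG.2.2) hle X hX hk
  · intro l
    filter_upwards [irred_fewer l] with n h2 G hG X hX hk g hg hg1 hd hle
    exact h2 G hG X hX hk g hg hg1 hd hle
  · exact fun n g => ⟨dispLe_four g, dispLe_three⟩
  · rintro n S hS hfin f rfl hf X hX hk
    have h := refl_bound hS hfin hf hX hk
    refine ⟨h, fun h4 => h.trans ?_⟩
    calc _ ≤ (n - finrank ℝ (fixSp S)).choose 4 *
          (16 ^ 4 * kissing (finrank ℝ (fixSp S))) := Nat.mul_le_mul_left _ (kiss_iter h4 4)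
      _ = _ := by unfold fixDim; ring
  · intro n S
    obtain ⟨X, hX, hfx, hc⟩ := refl_lower S
    exact ⟨X, hX, fun s hs x hx => by unfold app; rw [hfx x hx s hs]; exact hx, hc⟩

end Pool.Agent.Results.MP_b5f63d_co.SymmetryGroups
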